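import Pool.Agent.Q40.BT.Fin

set_option autoImplicit false

/-!
# Birational trivializations need not exist at every point of the base

For every algebraically closed field `k` there is a flat projective family of surfaces over the
affine line, with all fibres irreducible varieties birational to one another, that has no
birational trivialization at a point of the base, whatever projective model `X₀` is used.

The family is `{Y²Z⁴ + e Y Z⁵ = (U² - t W Z)³ + d (U² - t W Z) Z⁴}` in `𝔸¹ × ℙ³`, with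
`(e, d) = (0, 4)` if `2 ≠ 0` in `k` and `(e, d) = (1, 0)` if `2 = 0` in `k`.
-/

namespace Pool.Agent.Results.MP_45f016_ag.NoTrivialization

open AlgebraicGeometry CategoryTheory Q40.BT

theorem result (k : Type) [Field k] [IsAlgClosed k] :
    ∃ (B X : Scheme.{0}) (sB : B ⟶ Spec (.of k)) (f : X ⟶ B) (b : Spec (.of k) ⟶ B),
      IsFamily sB f ∧ IsPoint sB b ∧
      (∃ (X₀ : Scheme.{0}) (s₀ : X₀ ⟶ Spec (.of k)), IsProjectiveVariety s₀ ∧ IsModel sB f s₀) ∧
      ∀ (X₀ : Scheme.{0}) (s₀ : X₀ ⟶ Spec (.of k)), IsProjectiveVariety s₀ → IsModel sB f s₀ →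
        ¬ HasTrivialization sB f s₀ b := by
  obtain ⟨e, d, hg⟩ : ∃ e d : ℕ, Good k e d := by
    by_cases h : (2 : k) = 0
    · exact ⟨1, 0, Or.inr ⟨rfl, rfl, h⟩⟩
    · exact ⟨0, 4, Or.inl ⟨rfl, rfl, isUnit_iff_ne_zero.2 h⟩⟩
  exact ⟨BB k, XX k e d, sBB k, ff k e d, b₀ k, isFamily hg, isPoint_b₀ k,
    ⟨_, _, isProjectiveVariety_V hg 1, fun b _ => isModel_V hg b⟩,
    fun X₀ s₀ h₀ hm => not_hasTrivialization hg s₀ h₀.variety.integral hm⟩

end Pool.Agent.Results.MP_45f016_ag.NoTrivialization
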